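import Pool.Agent.H7.GT.Stmts

/-!
Board gt7, row EST: elementary symmetric numbers.
-/

set_option autoImplicit false

open Finset Polynomial

namespace Pool.GT7

open Pool.Agent.H23.KT Pool.Agent.H46.KW Pool.KQ

theorem EST_coeff {ι : Type} [DecidableEq ι] (T : Finset ι) (n : ι → ℕ) (u : ℕ) :
    (∏ i ∈ T, (1 + C (n i) * X) : ℕ[X]).coeff u =
      ∑ I ∈ T.powersetCard u, ∏ i ∈ I, n i := by
  have h1 : (∏ i ∈ T, (1 + C (n i) * X) : ℕ[X]) =
      ∑ I ∈ T.powerset, C (∏ i ∈ I, n i) * X ^ I.card := by
    rw [Finset.prod_one_add]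
    refine Finset.sum_congr rfl fun I _ => ?_
    rw [Finset.prod_mul_distrib, Finset.prod_const, map_prod]
  rw [h1, finsetSum_coeff, Finset.powersetCard_eq_filter, Finset.sum_filter]
  refine Finset.sum_congr rfl fun I _ => ?_
  rw [coeff_C_mul_X_pow]
  by_cases h : I.card = u
  · rw [if_pos h.symm, if_pos h]
  · rw [if_neg (fun h' => h h'.symm), if_neg h]

theorem EST_lower {ι : Type} [DecidableEq ι] (T : Finset ι) (n : ι → ℕ) (u lo : ℕ)
    (h : ∀ l, lo ≤ n l) :
    T.card.choose u * lo ^ u ≤ (∏ i ∈ T, (1 + C (n i) * X) : ℕ[X]).coeff u := by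
  rw [EST_coeff, ← Finset.card_powersetCard, ← smul_eq_mul, ← Finset.sum_const]
  refine Finset.sum_le_sum fun I hI => ?_
  rw [← (Finset.mem_powersetCard.1 hI).2, ← Finset.prod_const]
  exact Finset.prod_le_prod' fun i _ => h i

theorem EST_mul (a : ℕ) (Q : ℕ[X]) (k : ℕ) :
    ((1 + C a * X) * Q).coeff (k + 1) = Q.coeff (k + 1) + a * Q.coeff k := by
  rw [add_mul, one_mul, coeff_add, mul_assoc, coeff_C_mul, coeff_X_mul]

theorem EST_two {M : Type} [CommMonoid M] (f : ℕ → M) {b : ℕ} (n : Fin b → ℕ) (a s : ℕ)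
    (h : ∀ i, n i = a ∨ n i = a + 1) (hs : ∑ i, n i = b * a + s) :
    ∏ i, f (n i) = f (a + 1) ^ s * f a ^ (b - s) := by
  have h1 : ∀ i, n i = a + if n i = a + 1 then 1 else 0 := by
    intro i
    rcases h i with h | h
    · rw [if_neg (by omega)]; omega
    · rw [if_pos h]; omega
  have hcard : (univ.filter fun i => n i = a + 1).card = s := by
    have h2 : ∑ i, n i = ∑ i : Fin b, (a + if n i = a + 1 then 1 else 0) :=
      Finset.sum_congr rfl fun i _ => h1 i
    rw [Finset.sum_add_distrib, Finset.sum_const, ← Finset.card_filter, Finset.card_univ,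
      Fintype.card_fin, smul_eq_mul, hs] at h2
    omega
  have hcard' : (univ.filter fun i => ¬ n i = a + 1).card = b - s := by
    have h3 := Finset.card_filter_add_card_filter_not (s := (univ : Finset (Fin b)))
      (fun i => n i = a + 1)
    rw [hcard, Finset.card_univ, Fintype.card_fin] at h3
    omega
  have h4 : ∏ i, f (n i) = ∏ i : Fin b, if n i = a + 1 then f (a + 1) else f a := by
    refine Finset.prod_congr rfl fun i _ => ?_
    rcases h i with h | h
    · rw [if_neg (by omega), h]
    · rw [if_pos h, h]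
  rw [h4, Finset.prod_ite, Finset.prod_const, Finset.prod_const, hcard, hcard']

theorem EST_thm : ESTStmt := by
  refine ⟨?_, ?_, ?_, ?_⟩
  · intro b n u
    exact EST_coeff univ n u
  · intro b n u a s h hs
    refine ⟨?_, ?_⟩
    · have h1 := EST_two (fun k => (1 + C k * X : ℕ[X])) n a s h hs
      unfold es TT
      rw [h1]
    · have h1 := EST_two (fun k => k) n a s h hs
      rw [h1, mul_comm]
  · intro p w lo n i j hij hlo
    have hne : j ≠ i := by
      rintro rfl
      omega
    set T := ((univ : Finset (Fin (p + 3))).erase i).erase j with hT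
    have hjm : j ∈ (univ : Finset (Fin (p + 3))).erase i :=
      Finset.mem_erase.2 ⟨hne, Finset.mem_univ _⟩
    have hTc : T.card = p + 1 := by
      rw [hT, Finset.card_erase_of_mem hjm, Finset.card_erase_of_mem (Finset.mem_univ _),
        Finset.card_univ, Fintype.card_fin]
      omega
    have hsplit : ∀ m : Fin (p + 3) → ℕ, (∏ l, (1 + C (m l) * X) : ℕ[X]) =
        (1 + C (m i) * X) * ((1 + C (m j) * X) * ∏ l ∈ T, (1 + C (m l) * X)) := by
      intro m
      rw [hT, Finset.mul_prod_erase _ (fun l => (1 + C (m l) * X : ℕ[X])) hjm,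
        Finset.mul_prod_erase _ (fun l => (1 + C (m l) * X : ℕ[X])) (Finset.mem_univ _)]
    have hes : ∀ m : Fin (p + 3) → ℕ, es m (w + 2) =
        (∏ l ∈ T, (1 + C (m l) * X) : ℕ[X]).coeff (w + 2) +
          m j * (∏ l ∈ T, (1 + C (m l) * X) : ℕ[X]).coeff (w + 1) +
          m i * ((∏ l ∈ T, (1 + C (m l) * X) : ℕ[X]).coeff (w + 1) +
            m j * (∏ l ∈ T, (1 + C (m l) * X) : ℕ[X]).coeff w) := by
      intro m
      unfold es
      rw [hsplit m, show w + 2 = (w + 1) + 1 from rfl, EST_mul, EST_mul, EST_mul]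
    set n' := Function.update (Function.update n i (n i - 1)) j (n j + 1) with hn'
    have hni : n' i = n i - 1 := by
      rw [hn', Function.update_of_ne hne.symm, Function.update_self]
    have hnj : n' j = n j + 1 := by
      rw [hn', Function.update_self]
    have hQ : (∏ l ∈ T, (1 + C (n' l) * X) : ℕ[X]) = ∏ l ∈ T, (1 + C (n l) * X) := by
      refine Finset.prod_congr rfl fun l hl => ?_
      rw [hT, Finset.mem_erase, Finset.mem_erase] at hl
      rw [hn', Function.update_of_ne hl.1, Function.update_of_ne hl.2.1]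
    rw [hes n, hes n', hQ, hni, hnj]
    have hlow := EST_lower T n w lo hlo
    rw [hTc] at hlow
    obtain ⟨d, hd⟩ : ∃ d, n i = n j + 2 + d := ⟨n i - (n j + 2), by omega⟩
    rw [hd]
    have e1 : n j + 2 + d - n j - 1 = d + 1 := by omega
    have e2 : n j + 2 + d - 1 = n j + 1 + d := by omega
    rw [e1, e2]
    nlinarith [Nat.mul_le_mul_left (d + 1) hlow]
  · intro p w lo x n i hlo
    set T := (univ : Finset (Fin (p + 3))).erase i with hT
    have hTc : T.card = p + 2 := by
      rw [hT, Finset.card_erase_of_mem (Finset.mem_univ _), Finset.card_univ, Fintype.card_fin]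
      omega
    have hes : ∀ m : Fin (p + 3) → ℕ, es m (w + 2) =
        (∏ l ∈ T, (1 + C (m l) * X) : ℕ[X]).coeff (w + 2) +
          m i * (∏ l ∈ T, (1 + C (m l) * X) : ℕ[X]).coeff (w + 1) := by
      intro m
      unfold es
      rw [← Finset.mul_prod_erase _ (fun l => (1 + C (m l) * X : ℕ[X])) (Finset.mem_univ i),
        show w + 2 = (w + 1) + 1 from rfl, EST_mul]
    have hQ : (∏ l ∈ T, (1 + C (Function.update n i (n i + x) l) * X) : ℕ[X]) =
        ∏ l ∈ T, (1 + C (n l) * X) := by
      refine Finset.prod_congr rfl fun l hl => ?_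
      rw [Function.update_of_ne (Finset.ne_of_mem_erase hl)]
    rw [hes n, hes (Function.update n i (n i + x)), hQ, Function.update_self]
    have hlow := EST_lower T n (w + 1) lo hlo
    rw [hTc] at hlow
    nlinarith [Nat.mul_le_mul_left x hlow]

end Pool.GT7
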